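import Pool.Agent.TH171.EN.Defs
import Pool.Agent.H66R3.CR.Mat

/-!
# Absolutely irreducible representations detect non-nilpotent elements of PI rings

Job EN7 of the project on the normality of the elementary subgroup over PI rings
(MP_ecbc69_al, helper171).
-/

set_option autoImplicit false

namespace Pool.Agent.TH31.EN

open Pool.Agent.TH171.EN Pool.Agent.H66R3.CR Pool.Agent.H854R3.CR

theorem exists_matrix {R : Type} [Ring R] {d : ℕ} (c : Equiv.Perm (Fin d) → ℤ) (hc : c 1 = 1)
    (hid : Ident R c) (β : R) (hβ : ¬ IsNilpotent β) :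
    ∃ (K : Type) (_ : Field K) (s : ℕ) (Θ : R →+* Matrix (Fin s) (Fin s) K),
      ∀ k, Θ β ^ k ≠ 0 := by
  refine taskMat R ⊤ ⟨d, c, 1, hc, fun a _ => ?_⟩ β (by trivial) fun k hk => hβ ⟨k, hk⟩
  have h := hid a
  simpa only [zsmul_eq_mul] using h

/-- Burnside's theorem for simple modules over algebras over an algebraically closed field -/
theorem burnside {L A M : Type} [Field L] [IsAlgClosed L] [Ring A] [Algebra L A]
    [AddCommGroup M] [Module L M] [Module A M] [IsScalarTower L A M] [FiniteDimensional L M]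
    [IsSimpleModule A M] (g : Module.End L M) : ∃ a : A, ∀ m : M, a • m = g m := by
  classical
  have hs := IsSimpleModule.algebraMap_end_bijective_of_isAlgClosed (A := A) (V := M) L
  let f : Module.End (Module.End A M) M :=
    { toFun := g
      map_add' := map_add g
      map_smul' := by
        intro e m
        obtain ⟨l, rfl⟩ := hs.2 e
        change g (l • m) = l • g m
        exact map_smul g l m }
  let b := Module.finBasis L M
  obtain ⟨a, ha⟩ := jacobson_density f (Finset.univ.image b)
  refine ⟨a, fun m => ?_⟩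
  have h1 : (Algebra.lsmul L L M a : M →ₗ[L] M) = g := by
    refine b.ext fun i => ?_
    exact (ha (b i) (Finset.mem_image_of_mem _ (Finset.mem_univ i))).symm
  exact congrArg (fun φ : M →ₗ[L] M => φ m) h1

/-- in a finite-dimensional algebra an element in all maximal left ideals is nilpotent -/
theorem exists_maximal {L A : Type} [Field L] [Ring A] [Algebra L A] [FiniteDimensional L A]
    (a : A) (ha : ¬ IsNilpotent a) : ∃ I : Ideal A, I.IsMaximal ∧ a ∉ I := by
  have hart : IsArtinianRing A := IsArtinianRing.of_finite L A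
  by_contra hcon
  push Not at hcon
  have h1 : a ∈ Ring.jacobson A := by
    rw [Ring.jacobson_eq_sInf_isMaximal]
    exact Ideal.mem_sInf.2 fun {I} hI => hcon I hI
  obtain ⟨n, hn⟩ := IsSemiprimaryRing.isNilpotent (R := A)
  refine ha ⟨n, ?_⟩
  have h2 : a ^ n ∈ Ring.jacobson A ^ n := Ideal.pow_mem_pow h1 n
  rw [hn] at h2
  exact h2

theorem irrep_of_matrix {R L : Type} [Ring R] [Field L] [IsAlgClosed L] {s : ℕ}
    (Θ : R →+* Matrix (Fin s) (Fin s) L) (β : R) (hβ : ∀ k, Θ β ^ k ≠ 0) :
    ∃ (t : ℕ) (ρ : R →+* Matrix (Fin t) (Fin t) L),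
      Submodule.span L (Set.range ρ) = ⊤ ∧ ρ β ≠ 0 := by
  classical
  let A := Algebra.adjoin L (Set.range Θ)
  have hmem : ∀ r, Θ r ∈ A := fun r => Algebra.subset_adjoin ⟨r, rfl⟩
  let θ : R →+* A := Θ.codRestrict A.toSubring hmem
  have hspan : Submodule.span L (Set.range θ) = ⊤ := by
    have h0 : Subalgebra.toSubmodule A = Submodule.span L (Set.range Θ) := by
      rw [Algebra.adjoin_eq_span]
      congr 1
      have : (Submonoid.closure (Set.range Θ) : Submonoid (Matrix (Fin s) (Fin s) L)) =
          MonoidHom.mrange (Θ : R →* Matrix (Fin s) (Fin s) L) := by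
        rw [show Set.range Θ = ((MonoidHom.mrange (Θ : R →* Matrix (Fin s) (Fin s) L) :
          Submonoid _) : Set _) from rfl, Submonoid.closure_eq]
      rw [this]
      rfl
    rw [eq_top_iff]
    rintro ⟨x, hx⟩ -
    have hx' : x ∈ Submodule.span L (Set.range Θ) := by
      rw [← h0]
      exact hx
    have h3 : (Submodule.span L (Set.range θ)).map (A.val.toLinearMap) =
        Submodule.span L (Set.range Θ) := by
      rw [Submodule.map_span, ← Set.range_comp]
      rfl
    rw [← h3] at hx'
    obtain ⟨y, hy, hyx⟩ := hx'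
    have : y = ⟨x, hx⟩ := Subtype.ext hyx
    rw [← this]
    exact hy
  have hnil : ¬ IsNilpotent (θ β) := by
    rintro ⟨k, hk⟩
    apply hβ k
    have := congrArg (Subtype.val : A → _) hk
    exact this
  obtain ⟨I, hI, hβI⟩ := exists_maximal (L := L) (θ β) hnil
  have hsimple : IsSimpleModule A (A ⧸ I) := by
    rw [isSimpleModule_iff_isCoatom]
    exact hI.out
  let M := A ⧸ I
  let act : A →+* Module.End L M := (Algebra.lsmul L L M : A →ₐ[L] Module.End L M).toRingHom
  let b := Module.finBasis L M
  let e : Module.End L M ≃ₐ[L] Matrix (Fin (Module.finrank L M)) (Fin (Module.finrank L M)) L :=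
    LinearMap.toMatrixAlgEquiv b
  let Φ : A →ₐ[L] Matrix (Fin (Module.finrank L M)) (Fin (Module.finrank L M)) L :=
    e.toAlgHom.comp (Algebra.lsmul L L M)
  refine ⟨Module.finrank L M, Φ.toRingHom.comp θ, ?_, ?_⟩
  · have h1 : Set.range (Φ.toRingHom.comp θ) = Φ.toLinearMap '' Set.range θ := by
      rw [← Set.range_comp]
      rfl
    rw [h1, ← Submodule.map_span, hspan, Submodule.map_top, LinearMap.range_eq_top]
    intro m
    obtain ⟨a, ha⟩ := burnside (A := A) (e.symm m)
    refine ⟨a, ?_⟩
    change e (Algebra.lsmul L L M a) = m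
    have h2 : (Algebra.lsmul L L M a : Module.End L M) = e.symm m := LinearMap.ext ha
    rw [h2, AlgEquiv.apply_symm_apply]
  · intro h0
    have h1 : (Algebra.lsmul L L M (θ β) : Module.End L M) = 0 :=
      e.injective (by rw [map_zero]; exact h0)
    have h2 : (θ β) • (Submodule.Quotient.mk (1 : A) : M) = 0 :=
      congrArg (fun φ : Module.End L M => φ (Submodule.Quotient.mk (1 : A))) h1
    rw [← Submodule.Quotient.mk_smul, smul_eq_mul, mul_one,
      Submodule.Quotient.mk_eq_zero] at h2
    exact hβI h2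

/-- **EN7.** -/
theorem exists_irrep {R : Type} [Ring R] {d : ℕ} (c : Equiv.Perm (Fin d) → ℤ) (hc : c 1 = 1)
    (hid : Ident R c) (β : R) (hβ : ¬ IsNilpotent β) :
    ∃ (L : Type) (_ : Field L) (_ : IsAlgClosed L) (s : ℕ) (ρ : R →+* Matrix (Fin s) (Fin s) L),
      Submodule.span L (Set.range ρ) = ⊤ ∧ ρ β ≠ 0 := by
  obtain ⟨K, iK, s, Θ, hΘ⟩ := exists_matrix c hc hid β hβ
  obtain ⟨t, ρ, h1, h2⟩ := irrep_of_matrix (L := AlgebraicClosure K)
    ((algebraMap K (AlgebraicClosure K)).mapMatrix.comp Θ) β (by
      intro k hk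
      apply hΘ k
      have hinj : Function.Injective
          ((algebraMap K (AlgebraicClosure K)).mapMatrix (m := Fin s)) := by
        intro x y hxy
        ext i j
        have := congrFun (congrFun (congrArg (fun z : Matrix _ _ _ => (z : Fin s → Fin s → _)) hxy)
          i) j
        exact (algebraMap K (AlgebraicClosure K)).injective this
      apply hinj
      rw [map_zero, map_pow]
      exact hk)
  exact ⟨AlgebraicClosure K, inferInstance, inferInstance, t, ρ, h1, h2⟩

end Pool.Agent.TH31.EN
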