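import Pool.Agent.TH171.EN.Defs
import Pool.Agent.TH745.J267

/-!
# Finitely generated integral PI algebras are finite modules (Shirshov)

Job EN6 of the project on the normality of the elementary subgroup over PI rings
(MP_ecbc69_al, helper171).
-/

set_option autoImplicit false

namespace Pool.Agent.TH31.EN

open Pool.Agent.TH171.EN

/-- a power `x ^ K` of an integral element, `K` at least the degree of a monic polynomial -/
theorem pow_mem_span {Z D : Type} [CommRing Z] [Ring D] [Algebra Z D] (x : D)
    (p : Polynomial Z) (hp : p.Monic) (hx : Polynomial.aeval x p = 0) (K : ℕ)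
    (hK : p.natDegree ≤ K) :
    x ^ K ∈ Submodule.span Z {y | ∃ j < K, y = x ^ j} := by
  by_cases htriv : Subsingleton Z
  · have : Subsingleton D := by
      constructor
      intro a b
      have h1 : (1 : D) = 0 := by
        rw [← map_one (algebraMap Z D), Subsingleton.elim (1 : Z) 0, map_zero]
      rw [← mul_one a, ← mul_one b, h1, mul_zero, mul_zero]
    rw [Subsingleton.elim (x ^ K) 0]
    exact zero_mem _
  rw [not_subsingleton_iff_nontrivial] at htriv
  have hq : (p * Polynomial.X ^ (K - p.natDegree)).Monic := hp.mul (Polynomial.monic_X_pow _)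
  have hd : (p * Polynomial.X ^ (K - p.natDegree)).natDegree = K := by
    rw [hp.natDegree_mul (Polynomial.monic_X_pow _), Polynomial.natDegree_X_pow]
    omega
  have hz : Polynomial.aeval x (p * Polynomial.X ^ (K - p.natDegree)) = 0 := by
    rw [map_mul, hx, zero_mul]
  set q := p * Polynomial.X ^ (K - p.natDegree) with hqdef
  rw [Polynomial.aeval_eq_sum_range, hd, Finset.sum_range_succ] at hz
  have hc : q.coeff K = 1 := by
    rw [← hd]
    exact hq
  rw [hc, one_smul] at hz
  have h2 : x ^ K = -∑ i ∈ Finset.range K, q.coeff i • x ^ i := by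
    rw [eq_neg_iff_add_eq_zero, add_comm]
    exact hz
  rw [h2]
  refine neg_mem (Submodule.sum_mem _ fun i hi => Submodule.smul_mem _ _ ?_)
  exact Submodule.subset_span ⟨i, Finset.mem_range.1 hi, rfl⟩

section

variable {D : Type} [Ring D] {Λ : Type} (val : Λ → D)

/-- the value of a word -/
def vl (l : List Λ) : D := (l.map val).prod

theorem vl_append (a b : List Λ) : vl val (a ++ b) = vl val a * vl val b := by
  simp [vl]

theorem vl_flatten (L : List (List Λ)) : vl val L.flatten = (L.map (vl val)).prod := by
  induction L with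
  | nil => simp [vl]
  | cons a L ih =>
    rw [List.flatten_cons, vl_append, ih, List.map_cons, List.prod_cons]

theorem vl_ofFn {d : ℕ} (w : Fin d → List Λ) :
    vl val (List.ofFn w).flatten = (List.ofFn fun i => vl val (w i)).prod := by
  rw [vl_flatten, List.map_ofFn]
  rfl

theorem vl_replicate (j : ℕ) (u : List Λ) :
    vl val (List.replicate j u).flatten = vl val u ^ j := by
  rw [vl_flatten, List.map_replicate, List.prod_replicate]

end

theorem length_flatten_perm {Λ : Type} {d : ℕ} (w : Fin d → List Λ) (π : Equiv.Perm (Fin d)) :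
    (List.ofFn fun k => w (π k)).flatten.length = (List.ofFn w).flatten.length := by
  rw [List.length_flatten, List.length_flatten, List.map_ofFn, List.map_ofFn, List.sum_ofFn,
    List.sum_ofFn]
  exact Equiv.sum_comp π (fun k => (w k).length)

theorem lex_wf (Λ : Type) [Finite Λ] [LinearOrder Λ] (n : ℕ) :
    WellFounded (fun a b : {l : List Λ // l.length = n} => List.Lex (· < ·) a.1 b.1) := by
  have : Finite {l : List Λ // l.length = n} := (List.finite_length_eq Λ n).to_subtype
  have h1 : IsTrans {l : List Λ // l.length = n} (fun a b => List.Lex (· < ·) a.1 b.1) :=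
    ⟨fun a b c hab hbc => (lt_trans (α := List Λ) (a := a.1) (b := b.1) (c := c.1) hab hbc :)⟩
  have h2 : Std.Irrefl (fun a b : {l : List Λ // l.length = n} => List.Lex (· < ·) a.1 b.1) :=
    ⟨fun a h => lt_irrefl (α := List Λ) a.1 h⟩
  exact Finite.wellFounded_of_trans_of_irrefl _

theorem mem_span {Z D : Type} [CommRing Z] [Ring D] [Algebra Z D] {d : ℕ}
    (c : Equiv.Perm (Fin d) → ℤ) (hc : c 1 = 1) (hid : Ident D c)
    {Λ : Type} [Finite Λ] [LinearOrder Λ] (val : Λ → D) (K M : ℕ)
    (hK : ∀ u : List Λ, u.length ≤ d → vl val u ^ K ∈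
      Submodule.span Z {y | ∃ j < K, y = vl val u ^ j})
    (hM : ∀ l : List Λ, M ≤ l.length →
      (∃ a u b : List Λ, l = a ++ (List.replicate K u).flatten ++ b ∧ u.length ≤ d ∧ u ≠ []) ∨
      (∃ (a : List Λ) (w : Fin d → List Λ) (b : List Λ), l = a ++ (List.ofFn w).flatten ++ b ∧
        (∀ i, w i ≠ []) ∧ ∀ π : Equiv.Perm (Fin d), π ≠ 1 →
          List.Lex (· < ·) ((List.ofFn fun k => w (π k)).flatten) ((List.ofFn w).flatten))) :
    ∀ (n : ℕ) (l : List Λ), l.length = n →
      vl val l ∈ Submodule.span Z {y | ∃ l : List Λ, l.length < M ∧ y = vl val l} := by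
  classical
  intro n
  induction n using Nat.strong_induction_on with
  | _ n ih =>
  intro l hl
  have key : ∀ l : {l : List Λ // l.length = n},
      vl val l.1 ∈ Submodule.span Z {y | ∃ l : List Λ, l.length < M ∧ y = vl val l} := by
    intro l
    induction l using (lex_wf Λ n).induction with
    | _ l ih2 =>
    obtain ⟨l, hl⟩ := l
    simp only at ih2 ⊢
    by_cases hlM : l.length < M
    · exact Submodule.subset_span ⟨l, hlM, rfl⟩
    rcases hM l (not_lt.1 hlM) with ⟨a, u, b, h1, h2, h3⟩ | ⟨a, w, b, h1, h2, h3⟩
    · -- a power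
      have e : vl val l = vl val a * vl val u ^ K * vl val b := by
        rw [h1, vl_append, vl_append, vl_replicate]
      rw [e]
      have hmem := hK u h2
      have hl2 : a.length + K * u.length + b.length = n := by
        rw [← hl, h1]
        simp [add_assoc]
      have hu : 0 < u.length := List.length_pos_iff.2 h3
      generalize vl val u ^ K = y at hmem ⊢
      induction hmem using Submodule.span_induction with
      | mem y hy =>
        obtain ⟨j, hj, rfl⟩ := hy
        have e2 : vl val a * vl val u ^ j * vl val b =
            vl val (a ++ (List.replicate j u).flatten ++ b) := by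
          rw [vl_append, vl_append, vl_replicate]
        rw [e2]
        refine ih _ ?_ _ rfl
        have : j * u.length < K * u.length := Nat.mul_lt_mul_of_pos_right hj hu
        simp only [List.length_append, List.length_flatten, List.map_replicate,
          List.sum_replicate, smul_eq_mul]
        omega
      | zero => rw [mul_zero, zero_mul]; exact zero_mem _
      | add x y _ _ hx hy => rw [mul_add, add_mul]; exact add_mem hx hy
      | smul r x _ hx =>
        rw [mul_smul_comm, smul_mul_assoc]
        exact Submodule.smul_mem _ _ hx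
    · have hI := hid (fun i => vl val (w i))
      rw [← Finset.add_sum_erase _ _ (Finset.mem_univ (1 : Equiv.Perm (Fin d)))] at hI
      rw [hc, Int.cast_one, one_mul] at hI
      have e : vl val l = vl val a * (List.ofFn fun i => vl val (w i)).prod * vl val b := by
        rw [h1, vl_append, vl_append, vl_ofFn]
      have e1 : (List.ofFn fun i => vl val (w i)).prod =
          -∑ σ ∈ Finset.univ.erase (1 : Equiv.Perm (Fin d)),
            ((c σ : ℤ) : D) * (List.ofFn fun i => vl val (w (σ i))).prod := by
        rw [eq_neg_iff_add_eq_zero]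
        exact hI
      rw [e, e1, mul_neg, neg_mul]
      refine neg_mem ?_
      rw [Finset.mul_sum, Finset.sum_mul]
      refine Submodule.sum_mem _ fun σ hσ => ?_
      have hσ1 : σ ≠ 1 := Finset.ne_of_mem_erase hσ
      have e2 : vl val a * (((c σ : ℤ) : D) * (List.ofFn fun i => vl val (w (σ i))).prod) *
          vl val b = ((c σ : ℤ) : Z) •
            vl val (a ++ (List.ofFn fun k => w (σ k)).flatten ++ b) := by
        rw [vl_append, vl_append, vl_ofFn, Int.cast_smul_eq_zsmul, zsmul_eq_mul]
        simp only [mul_assoc]
        rw [← mul_assoc, ← mul_assoc (((c σ : ℤ) : D)) (vl val a), Int.cast_comm (c σ) (vl val a)]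
      rw [e2]
      refine Submodule.smul_mem _ _ ?_
      have hlen := length_flatten_perm w σ
      refine ih2 ⟨a ++ (List.ofFn fun k => w (σ k)).flatten ++ b, ?_⟩ ?_
      · rw [← hl, h1]
        simp only [List.length_append]
        omega
      · change List.Lex (· < ·) (a ++ (List.ofFn fun k => w (σ k)).flatten ++ b) l
        rw [h1]
        have h4 := h3 σ hσ1
        rw [List.append_assoc, List.append_assoc]
        exact TH745.J267.lex_append_left (TH745.J267.lex_append h4 hlen _ _) a
  exact key ⟨l, hl⟩

/-- **EN6.** A finitely generated integral PI algebra is a finite module. -/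
theorem finite_adjoin {Z D : Type} [CommRing Z] [Ring D] [Algebra Z D] {d : ℕ}
    (c : Equiv.Perm (Fin d) → ℤ) (hc : c 1 = 1) (hid : Ident D c)
    (hint : ∀ x : D, IsIntegral Z x) (F : Finset D) :
    Module.Finite Z (Algebra.adjoin Z (F : Set D)) := by
  classical
  let val : Fin F.card → D := fun i => (F.equivFin.symm i : D)
  choose p hp1 hp2 using hint
  have hfin : {u : List (Fin F.card) | u.length ≤ d}.Finite := List.finite_length_le _ d
  let K : ℕ := hfin.toFinset.sup (fun u => (p (vl val u)).natDegree)
  have hK : ∀ u : List (Fin F.card), u.length ≤ d → vl val u ^ K ∈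
      Submodule.span Z {y | ∃ j < K, y = vl val u ^ j} := by
    intro u hu
    refine pow_mem_span _ (p (vl val u)) (hp1 _) (hp2 _) K ?_
    exact Finset.le_sup (f := fun u => (p (vl val u)).natDegree) (hfin.mem_toFinset.2 hu)
  obtain ⟨M, hM⟩ := TH745.J267.shirshov_comb (Fin F.card) (fun _ => true) d K
  have hM' : ∀ l : List (Fin F.card), M ≤ l.length →
      (∃ a u b : List (Fin F.card), l = a ++ (List.replicate K u).flatten ++ b ∧
        u.length ≤ d ∧ u ≠ []) ∨
      (∃ (a : List (Fin F.card)) (w : Fin d → List (Fin F.card)) (b : List (Fin F.card)),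
        l = a ++ (List.ofFn w).flatten ++ b ∧
        (∀ i, w i ≠ []) ∧ ∀ π : Equiv.Perm (Fin d), π ≠ 1 →
          List.Lex (· < ·) ((List.ofFn fun k => w (π k)).flatten) ((List.ofFn w).flatten)) := by
    intro l hl
    rcases hM l (by simpa using hl) with ⟨a, u, b, h1, h2, x, hx, -⟩ | h
    · exact Or.inl ⟨a, u, b, h1, h2, List.ne_nil_of_mem hx⟩
    · exact Or.inr h
  have hall := mem_span c hc hid val K M hK hM'
  suffices hfg : (Subalgebra.toSubmodule (Algebra.adjoin Z (F : Set D))).FG from
    Module.Finite.iff_fg.2 hfg
  have hS : Subalgebra.toSubmodule (Algebra.adjoin Z (F : Set D)) =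
      Submodule.span Z {y | ∃ l : List (Fin F.card), l.length < M ∧ y = vl val l} := by
    rw [Algebra.adjoin_eq_span]
    apply le_antisymm
    · refine Submodule.span_le.2 ?_
      intro y hy
      obtain ⟨L, hL, rfl⟩ := Submonoid.exists_list_of_mem_closure hy
      have : ∃ l : List (Fin F.card), L.prod = vl val l := by
        clear hy
        induction L with
        | nil => exact ⟨[], by simp [vl]⟩
        | cons x L ih =>
          obtain ⟨l, hl⟩ := ih (fun y hy => hL y (List.mem_cons_of_mem _ hy))
          have hx : x ∈ F := hL x List.mem_cons_self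
          refine ⟨F.equivFin ⟨x, hx⟩ :: l, ?_⟩
          rw [List.prod_cons, hl]
          simp [vl, val]
      obtain ⟨l, hl⟩ := this
      rw [SetLike.mem_coe, hl]
      exact hall _ l rfl
    · refine Submodule.span_mono ?_
      rintro _ ⟨l, -, rfl⟩
      refine Submonoid.list_prod_mem _ ?_
      intro x hx
      obtain ⟨i, -, rfl⟩ := List.mem_map.1 hx
      exact Submonoid.subset_closure (F.equivFin.symm i).2
  rw [hS]
  refine Submodule.fg_span ?_
  refine ((List.finite_length_le (Fin F.card) M).image (vl val)).subset ?_
  rintro _ ⟨l, hl, rfl⟩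
  exact ⟨l, hl.le, rfl⟩

end Pool.Agent.TH31.EN
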